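import Pool.Agent.Q83.NT.Thr

/-!
# Commuting maps, linear times with random displacements

`θ_i(n)`, `i < m`, `n ∈ ℤ`, are independent random integers, `θ_i(n)` uniform on
`{0, ..., L_i(n) - 1}`; every amplitude `L_i` either tends to infinity (`i ∈ J`) with
`L_i(n) = |n|^{o(1)}` or is a constant `l_i`. For almost every choice of the displacements, for all
commuting invertible measure preserving maps `T_i` and all `f_i ∈ L^∞` at once, the averages over
`|n| ≤ N` of `∏ f_i(T_i^{a_i n + θ_i(n)} x)` are asymptotic to `∏_{i ∈ J} E(f_i | I(T_i))(x)` times the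
averages of the product over `i ∉ J` of the means of `f_i` over `l_i` consecutive points of the orbit
of `T_i`, at the times `a_i n`. Hence a displacement of unbounded amplitude, however slowly it grows,
removes a factor, and displacements of bounded amplitude do not change the question: for `J = ∅` the
displaced question is equivalent to the undisplaced one.

Proof: for one weight `w`, the mean square of `∑ w(n) ∏ f_i(T_i^{a_i n} x)` is bounded, by van der
Corput's method without averaging over the shifts, by a quantity which depends on `w` only; for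
centred independent weights its expectation is `O(N^{2 - 2^{-m}})`. The labels (values of the
displacements) are `N^{o(1)}` in number, so the sum over all labels is small along a sequence `N_j`
of polynomial growth for almost all displacements and all systems. Long means of `f_i` are close to
`E(f_i | I(T_i))` outside small sets, whose visit frequencies are controlled by Birkhoff's theorem. For
the equivalence, products with finite rotations single out residue classes of times.
-/

set_option autoImplicit false

open MeasureTheory ProbabilityTheory Filter Topology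

namespace Pool.Agent.Results.MP_4d8f14_an.DisplacedCommuting

open Pool.Agent.Q83.NT

/-- Almost surely, for all commuting maps: displacements of unbounded amplitude replace `f_i` by its
conditional expectation on the sets invariant under `T_i`, and displacements of bounded amplitude
replace the question by an equivalent one. -/
theorem result {m : ℕ} {Ω : Type*} [MeasurableSpace Ω] (P : Measure Ω) [IsProbabilityMeasure P]
    (θ : Fin m → ℤ → Ω → ℕ) (L : Fin m → ℤ → ℕ) (hθ : IsNoise P θ L)
    (hslow : ∀ q : ℕ, ∃ C : ℕ, ∀ i, ∀ n : ℤ, L i n ^ q ≤ C * (n.natAbs + 1))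
    (J : Finset (Fin m)) (hJ : ∀ i ∈ J, Tendsto (L i) cofinite atTop) (l : Fin m → ℕ)
    (hl : ∀ i ∉ J, ∀ n, L i n = l i) (a : Fin m → ℤ) (ha : ∀ i, a i ≠ 0) :
    ∀ᵐ ω ∂P,
      (∀ (X : Type) [MeasurableSpace X] (μ : Measure X) [IsProbabilityMeasure μ]
        (T : Fin m → Equiv.Perm X), (∀ i, Measurable (T i).symm) →
        (∀ i, MeasurePreserving (T i) μ μ) → (∀ i j, T i * T j = T j * T i) →
        ∀ f : Fin m → X → ℝ, (∀ i, MemLp (f i) ⊤ μ) →
        ∀ᵐ x ∂μ, Tendsto (fun N : ℕ =>
          ((2 * N + 1 : ℕ) : ℝ)⁻¹ * (∑ n ∈ Finset.Icc (-(N : ℤ)) (N : ℤ),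
            ∏ i, f i ((T i ^ (a i * n + (θ i n ω : ℤ))) x)) -
          (∏ i ∈ J, (μ[f i | MeasurableSpace.invariants (T i)]) x) *
          (((2 * N + 1 : ℕ) : ℝ)⁻¹ * ∑ n ∈ Finset.Icc (-(N : ℤ)) (N : ℤ),
            ∏ i ∈ Jᶜ, mn (T i) (l i) (f i) ((T i ^ (a i * n)) x))) atTop (𝓝 0)) ∧
      (ConvInt Finset.univ (fun i n => a i * n + (θ i n ω : ℤ)) ↔
        ConvInt Jᶜ fun i n => a i * n) :=
  thr_int hθ hslow J hJ l hl a ha

end Pool.Agent.Results.MP_4d8f14_an.DisplacedCommuting
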