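import Pool.Agent.Q161.MsJ

/-! # Pointwise convergence of nilpotent averages and permutations of finite sets

The question is equivalent to a statement about permutations of finite sets which generate a nilpotent
group. The equivalence holds for every bound on the class and for arbitrary integer sequences in the
place of the polynomials. -/

set_option autoImplicit false

open MeasureTheory Filter Topology
open scoped ENNReal

namespace Pool.Agent.Results.MP_4d8f14_an.FinitePermutations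

open Pool.Agent.Q161

section

variable {d m : ℕ}

/-- `g_j(n) x`, where `g_j(n)` is the product of the `T_i ^ e_{ij}(n)` in the order of the problem. -/
def point {X : Type} (T : Fin d → Equiv.Perm X) (e : Fin d → Fin m → ℤ → ℤ) (j : Fin m) (n : ℤ) (x : X) : X :=
  (List.ofFn fun i : Fin d => T i ^ e i j n).prod x

/-- The averages `A_N(f_1, ..., f_m)(x)`. -/
noncomputable def avg {X : Type} (T : Fin d → Equiv.Perm X) (e : Fin d → Fin m → ℤ → ℤ) (f : Fin m → X → ℂ)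
    (x : X) (N : ℕ) : ℂ :=
  ((2 * N + 1 : ℕ) : ℂ)⁻¹ * ∑ n ∈ Finset.Icc (-(N : ℤ)) (N : ℤ), ∏ j : Fin m, f j (point T e j n x)

/-- The group generated by the `T_i` is nilpotent of class at most `s`. -/
def ClassLE {X : Type} (T : Fin d → Equiv.Perm X) (s : ℕ) : Prop :=
  (Subgroup.closure (Set.range T)).lowerCentralSeries s = ⊥

/-- Convergence almost everywhere for all systems of class at most `s`. -/
def Pointwise (s : ℕ) (e : Fin d → Fin m → ℤ → ℤ) : Prop :=
  ∀ (X : Type) [MeasurableSpace X] (μ : Measure X) [IsProbabilityMeasure μ] (T : Fin d → Equiv.Perm X),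
    (∀ i, Measurable (T i).symm) → (∀ i, MeasurePreserving (T i) μ μ) → ClassLE T s →
    ∀ f : Fin m → X → ℂ, (∀ j, MemLp (f j) ∞ μ) → ∀ᵐ x ∂μ, ∃ L : ℂ, Tendsto (avg T e f x) atTop (𝓝 L)

/-- Uniform metastability: `K` depends only on `s`, the sequences `e`, `ε` and `Φ`. -/
def UniformRate (s : ℕ) (e : Fin d → Fin m → ℤ → ℤ) : Prop :=
  ∀ ε : ℝ, 0 < ε → ∀ Φ : ℕ → ℕ, ∃ K : ℕ,
    ∀ (X : Type) [MeasurableSpace X] (μ : Measure X) [IsProbabilityMeasure μ] (T : Fin d → Equiv.Perm X),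
    (∀ i, Measurable (T i).symm) → (∀ i, MeasurePreserving (T i) μ μ) → ClassLE T s →
    ∀ f : Fin m → X → ℂ, (∀ j, Measurable (f j)) → (∀ j x, ‖f j x‖ ≤ 1) →
      ∃ N, 1 ≤ N ∧ N ≤ K ∧
        μ {x | ∃ n, N ≤ n ∧ n ≤ Φ N ∧ ε < ‖avg T e f x n - avg T e f x N‖} ≤ ENNReal.ofReal ε

/-- The share of the `n` with `|n| ≤ N` for which `g_j(n) y` is in `A_j` for all `j`. -/
noncomputable def density {Y : Type} (T : Fin d → Equiv.Perm Y) (e : Fin d → Fin m → ℤ → ℤ)
    (A : Fin m → Set Y) (y : Y) (N : ℕ) : ℝ :=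
  (Nat.card {n : ℤ // -(N : ℤ) ≤ n ∧ n ≤ N ∧ ∀ j, point T e j n y ∈ A j} : ℝ) / (2 * N + 1)

/-- The finitary statement: permutations `T_1, ..., T_d` of a finite set `Y` that generate a nilpotent group
of class at most `s`, and subsets `A_1, ..., A_m` of `Y`. -/
def Finitary (s : ℕ) (e : Fin d → Fin m → ℤ → ℤ) : Prop :=
  ∀ ε : ℝ, 0 < ε → ∀ Φ : ℕ → ℕ, ∃ K : ℕ,
    ∀ (Y : Type) [Fintype Y] [Nonempty Y] (T : Fin d → Equiv.Perm Y), ClassLE T s → ∀ A : Fin m → Set Y,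
      ∃ N, 1 ≤ N ∧ N ≤ K ∧
        (Nat.card {y : Y // ∃ n, N ≤ n ∧ n ≤ Φ N ∧ ε < |density T e A y n - density T e A y N|} : ℝ) ≤
          ε * Fintype.card Y

lemma av_eq {X : Type} (T : Fin d → Equiv.Perm X) (e : Fin d → Fin m → ℤ → ℤ) (f : Fin m → X → ℂ) (x : X) (N : ℕ) :
    Ms.av (fun N : ℕ => ((2 * N + 1 : ℕ) : ℂ)⁻¹) (fun N => Finset.Icc (-(N : ℤ)) (N : ℤ)) (Ms.maps T e) f x N =
      avg T e f x N := rfl

lemma density_eq {Y : Type} (T : Fin d → Equiv.Perm Y) (e : Fin d → Fin m → ℤ → ℤ)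
    (A : Fin m → Set Y) (y : Y) (N : ℕ) :
    Ms.av (fun N : ℕ => ((2 * N + 1 : ℕ) : ℂ)⁻¹) (fun N => Finset.Icc (-(N : ℤ)) (N : ℤ)) (Ms.maps T e)
      (fun j => (A j).indicator 1) y N = ((density T e A y N : ℝ) : ℂ) := by
  classical
  unfold Ms.av density
  have h1 : Nat.card {n : ℤ // -(N : ℤ) ≤ n ∧ n ≤ N ∧ ∀ j, point T e j n y ∈ A j} =
      ((Finset.Icc (-(N : ℤ)) (N : ℤ)).filter (fun n => ∀ j, point T e j n y ∈ A j)).card := by
    rw [Nat.subtype_card]
    intro n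
    rw [Finset.mem_filter, Finset.mem_Icc, and_assoc]
  rw [h1, Finset.card_eq_sum_ones, Finset.sum_filter, div_eq_inv_mul]
  push_cast
  congr 1
  refine Finset.sum_congr rfl fun n _ => ?_
  have h2 : ∀ j, Ms.maps T e j n y = point T e j n y := fun j => rfl
  simp only [h2, Set.indicator_apply, Pi.one_apply]
  by_cases h3 : ∀ j, point T e j n y ∈ A j
  · rw [if_pos h3]
    exact Finset.prod_eq_one fun j _ => if_pos (h3 j)
  · rw [if_neg h3]
    push Not at h3
    obtain ⟨j, hj⟩ := h3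
    exact Finset.prod_eq_zero (Finset.mem_univ j) (if_neg hj)

/-- The three statements are equivalent. -/
theorem equiv (s : ℕ) (e : Fin d → Fin m → ℤ → ℤ) :
    (Pointwise s e ↔ UniformRate s e) ∧ (Pointwise s e ↔ Finitary s e) := by
  have h1 := Ms.main_equiv s atTop (fun N : ℕ => ((2 * N + 1 : ℕ) : ℂ)⁻¹)
    (fun N => Finset.Icc (-(N : ℤ)) (N : ℤ)) (by
      intro t
      rw [Int.card_Icc, norm_inv, Complex.norm_natCast]
      have h2 : ((t : ℤ) + 1 - -(t : ℤ)).toNat = 2 * t + 1 := by omega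
      rw [h2]
      exact inv_mul_le_one) e (fun N R => Finset.Icc N R) (fun N => N) (by
      intro U hU
      obtain ⟨a, ha⟩ := mem_atTop_sets.1 hU
      filter_upwards [eventually_ge_atTop a] with N hN
      refine ⟨ha N hN, fun R t ht => ?_⟩
      rw [Finset.mem_Icc] at ht
      exact ha t (hN.trans ht.1)) (by
      intro N
      filter_upwards [eventually_ge_atTop N] with t ht
      exact ⟨t, Finset.mem_Icc.2 ⟨ht, le_rfl⟩⟩) (by
      intro N R R' hR t ht
      rw [Finset.mem_Icc] at ht ⊢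
      exact ⟨ht.1, ht.2.trans hR⟩)
  have h2 : Ms.ConvT s atTop (fun N : ℕ => ((2 * N + 1 : ℕ) : ℂ)⁻¹)
      (fun N => Finset.Icc (-(N : ℤ)) (N : ℤ)) e ↔ Pointwise s e := Iff.rfl
  have h3 : Ms.UnifT s (fun N : ℕ => ((2 * N + 1 : ℕ) : ℂ)⁻¹)
      (fun N => Finset.Icc (-(N : ℤ)) (N : ℤ)) e (fun N R => Finset.Icc N R) (fun N => N) ↔ UniformRate s e := by
    unfold Ms.UnifT UniformRate
    simp only [av_eq, dist_eq_norm, Finset.mem_Icc, and_assoc]
    exact Iff.rfl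
  have h4 : Ms.FinT s (fun N : ℕ => ((2 * N + 1 : ℕ) : ℂ)⁻¹)
      (fun N => Finset.Icc (-(N : ℤ)) (N : ℤ)) e (fun N R => Finset.Icc N R) (fun N => N) ↔ Finitary s e := by
    unfold Ms.FinT Finitary
    simp only [density_eq, dist_eq_norm, Finset.mem_Icc, and_assoc, ← Complex.ofReal_sub, Complex.norm_real,
      Real.norm_eq_abs]
    exact Iff.rfl
  rw [h2, h3, h4] at h1
  exact h1

end

/-- The question, as in the frozen statement `S04625`. -/
def Question : Prop :=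
  ∀ (X : Type) [MeasurableSpace X] (μ : Measure X) [IsProbabilityMeasure μ]
    (d m : ℕ) (T : Fin d → Equiv.Perm X),
    (∀ i, Measurable ⇑(T i).symm) →
    (∀ i, MeasurePreserving (⇑(T i)) μ μ) →
    Group.IsNilpotent (Subgroup.closure (Set.range T)) →
    ∀ (P : Fin d → Fin m → Polynomial ℤ), (∀ i j, (P i j).eval 0 = 0) →
    ∀ (f : Fin m → X → ℂ), (∀ j, MemLp (f j) ∞ μ) →
    ∀ᵐ x ∂μ, ∃ L : ℂ, Filter.Tendsto
      (fun N : ℕ => ((2 * N + 1 : ℕ) : ℂ)⁻¹ *
        ∑ n ∈ Finset.Icc (-(N : ℤ)) (N : ℤ),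
          ∏ j : Fin m, f j ((List.ofFn fun i : Fin d => T i ^ (P i j).eval n).prod x))
      Filter.atTop (nhds L)

theorem result :
    (∀ (d m s : ℕ) (e : Fin d → Fin m → ℤ → ℤ),
      (Pointwise s e ↔ UniformRate s e) ∧ (Pointwise s e ↔ Finitary s e)) ∧
    (Question ↔ ∀ (d m s : ℕ) (P : Fin d → Fin m → Polynomial ℤ), (∀ i j, (P i j).eval 0 = 0) →
      Finitary s (fun i j n => (P i j).eval n)) := by
  refine ⟨fun d m s e => equiv s e, ⟨fun hQ d m s P hP => ?_, fun hF => ?_⟩⟩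
  · rw [← (equiv s _).2]
    intro X _ μ _ T hT1 hT2 hT3 f hf
    exact hQ X μ d m T hT1 hT2 (Subgroup.isNilpotent_iff_lowerCentralSeries _ |>.2 ⟨s, hT3⟩) P hP f hf
  · intro X _ μ _ d m T hT1 hT2 hT3 P hP f hf
    obtain ⟨s, hs⟩ := (Subgroup.isNilpotent_iff_lowerCentralSeries _).1 hT3
    exact (equiv s _).2.2 (hF d m s P hP) X μ T hT1 hT2 hs f hf

end Pool.Agent.Results.MP_4d8f14_an.FinitePermutations
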