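import Pool.Agent.Q96.KP.Two

/-!
# Kolmogorov extensions of arbitrary systems: polynomial exponents and arbitrary sequences

A group `G` acts by measure preserving bijections `Φ g` of a probability space `(X, μ)`, and
`ℓ : G → ℝ` is a homomorphism. `𝒴 ⊆ 𝒜` are sub-`σ`-algebras, `𝒴` is invariant, and

* `(Φ g)⁻¹ 𝒜 ⊆ 𝒜` whenever `ℓ g ≤ 0`,
* the `(Φ g)⁻¹ 𝒜`, `g ∈ G`, generate all measurable sets modulo `μ`,
* the intersection of the `(Φ g)⁻¹ 𝒜`, `g ∈ G`, is contained in `𝒴` modulo `μ`,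

that is, the action is a Kolmogorov (`K`-) extension of its factor `𝒴` (for `𝒴` trivial: a
`K`-action). Nothing is assumed about the factor `𝒴`. `G` need not be commutative or nilpotent.
For example, the factor `𝒴` is arbitrary and `X` is its product with a Bernoulli action of `G`.
-/

set_option autoImplicit false

open Filter Topology MeasureTheory
open scoped ENNReal

namespace Pool.Agent.Results.MP_4d8f14_an.KolmogorovSequences

/-- For every `R`, the number of `n ∈ ℤ` with `lam n` in an interval of length `R` is bounded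
independently of the interval. -/
def BoundedMultiplicity (lam : ℤ → ℝ) : Prop :=
  ∀ R : ℝ, 0 < R → ∃ C : ℕ, ∀ (a : ℝ) (M : ℕ),
    ((Finset.Icc (-(M : ℤ)) (M : ℤ)).filter fun n => a ≤ lam n ∧ lam n < a + R).card ≤ C

open Classical in
/-- For every `R`, the set of `n ∈ ℤ` with `|lam n - lam' n| < R` has density zero. -/
def Apart (lam lam' : ℤ → ℝ) : Prop :=
  ∀ R : ℝ, 0 < R → Tendsto (fun N : ℕ => ((2 * N + 1 : ℕ) : ℝ)⁻¹ *
    ∑ n ∈ Finset.Icc (-(N : ℤ)) (N : ℤ), (if |lam n - lam' n| < R then (1 : ℝ) else 0))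
    atTop (𝓝 0)

/-- The `g_j(n) = t_1^(P_1j(n)) ⋯ t_d^(P_dj(n))` are given by integer polynomials, and the real
polynomials `ℓ (g_j(n))` and their differences (for `i ≠ j`) are not constant. -/
def PolynomialLevels {G : Type*} [Group G] {m : ℕ} (ℓ : G → ℝ) (g : Fin m → ℤ → G) : Prop :=
  ∃ (d : ℕ) (t : Fin d → G) (P : Fin d → Fin m → Polynomial ℤ),
    (∀ j n, g j n = (List.ofFn fun i => t i ^ (P i j).eval n).prod) ∧
    (∀ j, 0 < (∑ i, Polynomial.C (ℓ (t i)) * (P i j).map (Int.castRingHom ℝ)).natDegree) ∧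
    ∀ j j', j ≠ j' → 0 < (∑ i, Polynomial.C (ℓ (t i)) * (P i j).map (Int.castRingHom ℝ) -
      ∑ i, Polynomial.C (ℓ (t i)) * (P i j').map (Int.castRingHom ℝ)).natDegree

/-- For every bounded measurable `H`, the averages of `n ↦ H (q n x)` over `|n| ≤ N` converge for
almost every `x`. -/
def SingleAveragesConverge {X : Type*} [MeasurableSpace X] (μ : Measure X)
    (q : ℤ → X → X) : Prop :=
  ∀ H : X → ℝ, Measurable H → (∃ C : ℝ, ∀ x, |H x| ≤ C) →
    ∀ᵐ x ∂μ, ∃ L : ℝ, Tendsto (fun N : ℕ => ((2 * N + 1 : ℕ) : ℝ)⁻¹ *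
      ∑ n ∈ Finset.Icc (-(N : ℤ)) (N : ℤ), H (q n x)) atTop (𝓝 L)

/-- The conditional expectations of `f` on the `σ`-algebras `(Φ r)⁻¹ 𝒜` come arbitrarily close to
`f`, and also arbitrarily close to `E(f | 𝒴)`, in the essential supremum norm (for example, the
continuous functions on `A^G`, `A` finite, for Bernoulli measures, and all functions of `𝒴`). -/
def UniformlyRegular {X G : Type*} [Group G] {mX : MeasurableSpace X} (μ : Measure X)
    (𝒜 𝒴 : MeasurableSpace X) (Φ : G →* Equiv.Perm X) (f : X → ℂ) : Prop :=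
  ∀ ε : ℝ, 0 < ε → ∃ r s : G, ∀ᵐ x ∂μ, ‖f x - (μ[f | 𝒜.comap (Φ r : X → X)]) x‖ ≤ ε ∧
    ‖(μ[f | 𝒜.comap (Φ s : X → X)]) x - (μ[f | 𝒴]) x‖ ≤ ε

/-- Let `X` be a Kolmogorov extension of its factor `𝒴` with respect to `ℓ : G → ℝ`, and let
`g_1, …, g_m : ℤ → G` be sequences such that either `g_j(n) = t_1^(P_1j(n)) ⋯ t_d^(P_dj(n))` with
integer polynomials `P_ij` for which the polynomials `ℓ (g_j(n))` and their differences are not
constant, or the sequences `ℓ (g_j(n))` have bounded multiplicity and are pairwise apart. Let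
`f_1, …, f_m ∈ L^∞(X)` and suppose that for each `j`

* `g_j(n) = w b^n` for some `w, b ∈ G`, or
* the averages of single bounded functions along `g_j` converge almost everywhere, or
* `f_j` is uniformly regular.

Then for almost every `x` the averages over `|n| ≤ N` of
`∏_j f_j (g_j(n) x) - ∏_j E(f_j | 𝒴) (g_j(n) x)` tend to zero. So the averages of
`∏_j f_j (g_j(n) x)` converge where those of the conditional expectations on the factor do; and for
a `K`-action (`𝒴` trivial) they converge to `∏_j ∫ f_j` almost everywhere. -/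
theorem result (m : ℕ) {X G : Type*} [Group G] (𝒜 𝒴 : MeasurableSpace X)
    [mX : MeasurableSpace X] (μ : Measure X) [IsProbabilityMeasure μ] (Φ : G →* Equiv.Perm X)
    (hΦ : ∀ g, MeasurePreserving (Φ g) μ μ)
    (ℓ : G → ℝ) (hℓ : ∀ g h, ℓ (g * h) = ℓ g + ℓ h)
    (h𝒜 : 𝒜 ≤ mX) (h𝒴 : 𝒴 ≤ 𝒜) (hinv : ∀ g, Measurable[𝒴, 𝒴] (Φ g : X → X))
    (hmono : ∀ g, ℓ g ≤ 0 → 𝒜.comap (Φ g : X → X) ≤ 𝒜)
    (hgen : ∀ B, MeasurableSet[mX] B →
      ∃ B', MeasurableSet[⨆ g, 𝒜.comap (Φ g : X → X)] B' ∧ B =ᵐ[μ] B')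
    (htail : ∀ B, (∀ g, MeasurableSet[𝒜.comap (Φ g : X → X)] B) →
      ∃ B', MeasurableSet[𝒴] B' ∧ B =ᵐ[μ] B')
    (g : Fin m → ℤ → G)
    (hlev : PolynomialLevels ℓ g ∨ ((∀ j, BoundedMultiplicity fun n => ℓ (g j n)) ∧
      ∀ i j, i ≠ j → Apart (fun n => ℓ (g i n)) (fun n => ℓ (g j n))))
    (f : Fin m → X → ℂ) (hf : ∀ j, MemLp (f j) ∞ μ)
    (hslot : ∀ j, (∃ w b : G, ∀ n, g j n = w * b ^ n) ∨
      SingleAveragesConverge μ (fun n => (Φ (g j n) : X → X)) ∨
      UniformlyRegular μ 𝒜 𝒴 Φ (f j)) :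
    ∀ᵐ x ∂μ, Tendsto (fun N : ℕ => ((2 * N + 1 : ℕ) : ℂ)⁻¹ *
      ∑ n ∈ Finset.Icc (-(N : ℤ)) (N : ℤ),
        (∏ j, f j (Φ (g j n) x) - ∏ j, (μ[f j | 𝒴]) (Φ (g j n) x))) atTop (𝓝 0) := by
  have hlev' : (∀ j, BoundedMultiplicity fun n => ℓ (g j n)) ∧
      ∀ i j, i ≠ j → Apart (fun n => ℓ (g i n)) (fun n => ℓ (g j n)) := by
    rcases hlev with ⟨d, t, P, hg, h1, h2⟩ | h
    · have hval : ∀ j n, ℓ (g j n) =
          (∑ i, Polynomial.C (ℓ (t i)) * (P i j).map (Int.castRingHom ℝ)).eval (n : ℝ) := by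
        intro j n
        rw [hg, Pool.Agent.Q96.KP.level_prod hℓ, Polynomial.eval_finsetSum]
        refine Finset.sum_congr rfl fun i _ => ?_
        rw [Polynomial.eval_mul, Polynomial.eval_C, Polynomial.eval_intCast_map]
        rfl
      refine ⟨fun j => ?_, fun i j hij => ?_⟩
      · have h3 := Pool.Agent.Q96.KP.bdd_poly (h1 j)
        simp only [← hval] at h3
        exact h3
      · refine Pool.Agent.Q96.KP.apart_of_bdd ?_
        have h3 := Pool.Agent.Q96.KP.bdd_poly (h2 i j hij)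
        simp only [Polynomial.eval_sub, ← hval] at h3
        exact h3
    · exact h
  exact Pool.Agent.Q96.KP.main_two (mA := 𝒜) (mY := 𝒴) (ℓ := ℓ)
    ⟨hΦ, ⟨hℓ, h𝒜, hmono⟩, ⟨h𝒴, hinv⟩, hgen, htail⟩ g hlev'.1 hlev'.2 hf hslot

end Pool.Agent.Results.MP_4d8f14_an.KolmogorovSequences
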