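import Pool.Agent.Q197.PS.TS
import Pool.Agent.Q197.PS.RP

/-! # Pointwise convergence of nilpotent averages along random unions of residue classes of times -/

set_option autoImplicit false

open Finset Filter Topology MeasureTheory
open scoped ENNReal

namespace Pool.Agent.Results.MP_4d8f14_an.UnionsOfClasses

open Q197.PS

section

variable {X : Type} {d m : ℕ}

/-- The term of the averages at the time `n` and the point `x`. -/
noncomputable def term (T : Fin d → Equiv.Perm X) (P : Fin d → Fin m → Polynomial ℤ) (f : Fin m → X → ℂ)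
    (x : X) (n : ℤ) : ℂ :=
  ∏ j : Fin m, f j ((List.ofFn fun i : Fin d => T i ^ (P i j).eval n).prod x)

open Classical in
/-- The averages over the times `n` with `|n| ≤ N` and residue modulo `Q` in `A`, with the factor `1 / (2 N + 1)`. -/
noncomputable def avg (T : Fin d → Equiv.Perm X) (P : Fin d → Fin m → Polynomial ℤ) (f : Fin m → X → ℂ)
    (Q : ℕ) (A : Finset ℤ) (x : X) (N : ℕ) : ℂ :=
  ((2 * N + 1 : ℕ) : ℂ)⁻¹ * ∑ n ∈ (Icc (-(N : ℤ)) (N : ℤ)).filter (fun n => n % (Q : ℤ) ∈ A), term T P f x n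

/-- Convergence at the point `x` along `A`. -/
def ConvAt (T : Fin d → Equiv.Perm X) (P : Fin d → Fin m → Polynomial ℤ) (f : Fin m → X → ℂ)
    (Q : ℕ) (A : Finset ℤ) (x : X) : Prop :=
  ∃ L : ℂ, Tendsto (avg T P f Q A x) atTop (𝓝 L)

/-- Convergence almost everywhere along `A`. -/
def ConvAE [MeasurableSpace X] (μ : Measure X) (T : Fin d → Equiv.Perm X)
    (P : Fin d → Fin m → Polynomial ℤ) (f : Fin m → X → ℂ) (Q : ℕ) (A : Finset ℤ) : Prop :=
  ∀ᵐ x ∂μ, ConvAt T P f Q A x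

open Classical in
/-- The number of the sets `A` of residues modulo `Q` with convergence almost everywhere along `A`. -/
noncomputable def count [MeasurableSpace X] (μ : Measure X) (T : Fin d → Equiv.Perm X)
    (P : Fin d → Fin m → Polynomial ℤ) (f : Fin m → X → ℂ) (Q : ℕ) : ℕ :=
  ((Ico 0 (Q : ℤ)).powerset.filter (fun A => ConvAE μ T P f Q A)).card

open Classical in
/-- The number of the sets `A` of residues modulo `Q` with convergence at `x` along `A`. -/
noncomputable def countAt (T : Fin d → Equiv.Perm X)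
    (P : Fin d → Fin m → Polynomial ℤ) (f : Fin m → X → ℂ) (Q : ℕ) (x : X) : ℕ :=
  ((Ico 0 (Q : ℤ)).powerset.filter (fun A => ConvAt T P f Q A x)).card

lemma conv_iff' (T : Fin d → Equiv.Perm X) (P : Fin d → Fin m → Polynomial ℤ) (f : Fin m → X → ℂ)
    (Q : ℕ) (A : Finset ℤ) (x : X) : ConvAt T P f Q A x ↔ ConvZ (term T P f x) Q A := Iff.rfl

lemma countAt_eq (T : Fin d → Equiv.Perm X) (P : Fin d → Fin m → Polynomial ℤ) (f : Fin m → X → ℂ)
    (Q : ℕ) (x : X) : countAt T P f Q x = nCZ (term T P f x) Q := by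
  classical
  unfold countAt nCZ
  simp only [conv_iff']

/-- the maps that are used -/
def Good [MeasurableSpace X] (μ : Measure X) (g : Equiv.Perm X) : Prop :=
  Measurable g.symm ∧ MeasurePreserving g μ μ

lemma good_one [MeasurableSpace X] (μ : Measure X) : Good μ (1 : Equiv.Perm X) :=
  ⟨measurable_id, MeasurePreserving.id μ⟩

lemma good_mul [MeasurableSpace X] {μ : Measure X} {g h : Equiv.Perm X} (hg : Good μ g) (hh : Good μ h) :
    Good μ (g * h) :=
  ⟨hh.1.comp hg.1, hg.2.comp hh.2⟩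

lemma good_inv [MeasurableSpace X] {μ : Measure X} {g : Equiv.Perm X} (hg : Good μ g) : Good μ g⁻¹ := by
  refine ⟨hg.2.measurable, ?_⟩
  have h1 : MeasurePreserving (⟨g, hg.2.measurable, hg.1⟩ : X ≃ᵐ X) μ μ := hg.2
  exact h1.symm

lemma good_zpow [MeasurableSpace X] {μ : Measure X} {g : Equiv.Perm X} (hg : Good μ g) (z : ℤ) : Good μ (g ^ z) := by
  have h1 : ∀ m : ℕ, Good μ (g ^ m) := by
    intro m
    induction m with
    | zero => rw [pow_zero]; exact good_one μ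
    | succ m ih => rw [pow_succ]; exact good_mul ih hg
  rcases z with m | m
  · exact h1 m
  · rw [zpow_negSucc]
    exact good_inv (h1 _)

lemma good_list [MeasurableSpace X] {μ : Measure X} (l : List (Equiv.Perm X)) (hl : ∀ g ∈ l, Good μ g) :
    Good μ l.prod := by
  induction l with
  | nil => rw [List.prod_nil]; exact good_one μ
  | cons g l ih =>
    rw [List.prod_cons]
    exact good_mul (hl g (List.mem_cons_self)) (ih fun h hh => hl h (List.mem_cons_of_mem _ hh))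

lemma bdd_ae [MeasurableSpace X] {μ : Measure X} {T : Fin d → Equiv.Perm X} (hT : ∀ i, Good μ (T i))
    (P : Fin d → Fin m → Polynomial ℤ) {f : Fin m → X → ℂ} (hf : ∀ j, MemLp (f j) ∞ μ) :
    ∃ K : ℝ, ∀ᵐ x ∂μ, ∀ n, ‖term T P f x n‖ ≤ K := by
  have h1 : ∀ j, ∃ C : ℝ, ∀ᵐ y ∂μ, ‖f j y‖ ≤ C := by
    intro j
    refine ⟨(eLpNormEssSup (f j) μ).toReal, ?_⟩
    have h2 : eLpNormEssSup (f j) μ ≠ ⊤ := by
      have := (hf j).2
      rw [eLpNorm_exponent_top] at this
      exact this.ne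
    filter_upwards [ae_le_eLpNormEssSup (f := f j) (μ := μ)] with y hy
    have h3 := ENNReal.toReal_mono h2 hy
    rwa [toReal_enorm] at h3
  choose C hC using h1
  refine ⟨∏ j, |C j|, ?_⟩
  rw [ae_all_iff]
  intro n
  have h2 : ∀ j, ∀ᵐ x ∂μ, ‖f j ((List.ofFn fun i : Fin d => T i ^ (P i j).eval n).prod x)‖ ≤ |C j| := by
    intro j
    have h3 : Good μ (List.ofFn fun i : Fin d => T i ^ (P i j).eval n).prod := by
      refine good_list _ fun g hg => ?_
      rw [List.mem_ofFn] at hg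
      obtain ⟨i, rfl⟩ := hg
      exact good_zpow (hT i) _
    filter_upwards [h3.2.quasiMeasurePreserving.ae (hC j)] with x hx
    exact hx.trans (le_abs_self _)
  rw [← ae_all_iff] at h2
  filter_upwards [h2] with x hx
  unfold term
  rw [norm_prod]
  exact prod_le_prod (fun _ _ => norm_nonneg _) fun j _ => hx j

/-- **Zero-one law** -/
theorem zero_one' [MeasurableSpace X] {μ : Measure X} {T : Fin d → Equiv.Perm X} (hT : ∀ i, Good μ (T i))
    (P : Fin d → Fin m → Polynomial ℤ) {f : Fin m → X → ℂ} (hf : ∀ j, MemLp (f j) ∞ μ) (q : ℕ)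
    (B : Finset ℤ) (hcon : ¬ ConvAE μ T P f q B) : ∃ C : ℝ, 0 < C ∧ ∀ Q : ℕ, 0 < Q → q ∣ Q →
      (count μ T P f Q : ℝ) ≤ C * 2 ^ Q / √Q := by
  classical
  obtain ⟨K, hK⟩ := bdd_ae hT P hf
  have h1 : ∀ᵐ x ∂μ, ∀ Q : ℕ, ∀ A : Finset ℤ, ConvAE μ T P f Q A → ConvAt T P f Q A x := by
    rw [ae_all_iff]
    intro Q
    rw [ae_all_iff]
    intro A
    by_cases h : ConvAE μ T P f Q A
    · filter_upwards [h] with x hx _ using hx
    · exact Eventually.of_forall fun x h' => absurd h' h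
  have h2 : ∃ᶠ x in ae μ, ¬ ConvAt T P f q B x := by
    intro h3
    apply hcon
    filter_upwards [h3] with x hx
    simpa using hx
  obtain ⟨x, hx1, hx2, hx3⟩ := (h2.and_eventually (hK.and h1)).exists
  rw [conv_iff'] at hx1
  obtain ⟨C, hC, h4⟩ := few_convZ' hx2 q B hx1
  refine ⟨C, hC, fun Q hQ hd => le_trans ?_ (h4 Q hQ hd)⟩
  rw [← countAt_eq]
  have h5 : count μ T P f Q ≤ countAt T P f Q x := by
    unfold count countAt
    refine card_le_card fun A hA => ?_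
    rw [mem_filter] at hA ⊢
    exact ⟨hA.1, hx3 Q A hA.2⟩
  exact_mod_cast h5

lemma ae_of_share [MeasurableSpace X] {μ : Measure X} {T : Fin d → Equiv.Perm X} (hT : ∀ i, Good μ (T i))
    (P : Fin d → Fin m → Polynomial ℤ) {f : Fin m → X → ℂ} (hf : ∀ j, MemLp (f j) ∞ μ) (q : ℕ)
    (B : Finset ℤ)
    (h : ∀ K : ℝ, ∃ Q : ℕ, 0 < Q ∧ q ∣ Q ∧ K * 2 ^ Q / √Q ≤ count μ T P f Q) :
    ConvAE μ T P f q B := by
  by_contra hcon
  obtain ⟨C, hC, h1⟩ := zero_one' hT P hf q B hcon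
  obtain ⟨Q, hQ, hd, h2⟩ := h (2 * C)
  exact contra' hQ hC le_rfl h2 (h1 Q hQ hd)

end

/-- The question, as in the frozen statement `S04625`. -/
def Question : Prop :=
  ∀ (X : Type) [MeasurableSpace X] (μ : Measure X) [IsProbabilityMeasure μ]
    (d m : ℕ) (T : Fin d → Equiv.Perm X),
    (∀ i, Measurable ⇑(T i).symm) →
    (∀ i, MeasurePreserving (⇑(T i)) μ μ) →
    Group.IsNilpotent (Subgroup.closure (Set.range T)) →
    ∀ (P : Fin d → Fin m → Polynomial ℤ), (∀ i j, (P i j).eval 0 = 0) →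
    ∀ (f : Fin m → X → ℂ), (∀ j, MemLp (f j) ∞ μ) →
    ∀ᵐ x ∂μ, ∃ L : ℂ, Filter.Tendsto
      (fun N : ℕ => ((2 * N + 1 : ℕ) : ℂ)⁻¹ *
        ∑ n ∈ Finset.Icc (-(N : ℤ)) (N : ℤ),
          ∏ j : Fin m, f j ((List.ofFn fun i : Fin d => T i ^ (P i j).eval n).prod x))
      Filter.atTop (nhds L)

section

variable {X : Type} {d m : ℕ}

/-- the new polynomials -/
noncomputable def PP (P : Fin d → Fin m → Polynomial ℤ) : Fin (d + 1) → Fin (m + 1) → Polynomial ℤ :=
  Fin.cons (Fin.cons Polynomial.X (fun _ => 0)) (fun i => Fin.cons 0 (P i))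

/-- the new functions -/
noncomputable def ff (Q : ℕ) (A : Finset ℤ) (f : Fin m → X → ℂ) : Fin (m + 1) → X × ZMod Q → ℂ :=
  Fin.cons (fun z => if ((z.2.val : ℕ) : ℤ) ∈ A then 1 else 0) (fun j z => f j z.1)

lemma list_rot (Q : ℕ) (g : Fin d → Equiv.Perm X) :
    (List.ofFn fun i : Fin d => RP.rot (Q := Q) (g i) 0).prod = RP.rot ((List.ofFn g).prod) 0 := by
  have h := map_list_prod (RP.Phi X Q) (List.ofFn fun i => (g i, Multiplicative.ofAdd (0 : ZMod Q)))
  rw [List.map_ofFn] at h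
  have h1 : (List.ofFn fun i => (g i, Multiplicative.ofAdd (0 : ZMod Q))).prod = ((List.ofFn g).prod, 1) := by
    have h2 := map_list_prod (MonoidHom.inl (Equiv.Perm X) (Multiplicative (ZMod Q))) (List.ofFn g)
    rw [List.map_ofFn] at h2
    exact h2.symm
  rw [h1] at h
  exact h.symm

lemma term_prod {Q : ℕ} (hQ : 0 < Q) (T : Fin d → Equiv.Perm X) (P : Fin d → Fin m → Polynomial ℤ)
    (f : Fin m → X → ℂ) (A : Finset ℤ) (x : X) (n : ℤ) :
    term (RP.gens T Q) (PP P) (ff Q A f) (x, 0) n = (if n % (Q : ℤ) ∈ A then 1 else 0) * term T P f x n := by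
  have : NeZero Q := ⟨hQ.ne'⟩
  unfold term
  rw [Fin.prod_univ_succ]
  congr 1
  · rw [List.ofFn_succ, List.prod_cons]
    have h1 : (List.ofFn fun i : Fin d => RP.gens T Q i.succ ^ (PP P i.succ 0).eval n).prod = 1 := by
      have h2 : (fun i : Fin d => RP.gens T Q i.succ ^ (PP P i.succ 0).eval n) = fun _ => 1 := by
        funext i
        unfold PP
        rw [Fin.cons_succ, Fin.cons_zero, Polynomial.eval_zero, zpow_zero]
      rw [h2, List.ofFn_const, List.prod_replicate, one_pow]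
    rw [h1, mul_one]
    have h3 : RP.gens T Q 0 ^ (PP P 0 0).eval n = RP.rot 1 ((n : ZMod Q)) := by
      unfold PP RP.gens
      rw [Fin.cons_zero, Fin.cons_zero, Fin.cons_zero, Polynomial.eval_X, RP.rot_zpow, one_zpow, mul_one]
    rw [h3, RP.rot_apply, zero_add]
    unfold ff
    rw [Fin.cons_zero]
    simp only [ZMod.val_intCast]
  · refine prod_congr rfl fun j _ => ?_
    rw [List.ofFn_succ, List.prod_cons]
    have h1 : RP.gens T Q 0 ^ (PP P 0 j.succ).eval n = 1 := by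
      unfold PP
      rw [Fin.cons_zero, Fin.cons_succ, Polynomial.eval_zero, zpow_zero]
    have h2 : (fun i : Fin d => RP.gens T Q i.succ ^ (PP P i.succ j.succ).eval n) =
        fun i => RP.rot (T i ^ (P i j).eval n) 0 := by
      funext i
      unfold PP RP.gens
      rw [Fin.cons_succ, Fin.cons_succ, Fin.cons_succ, RP.rot_zpow, mul_zero]
    rw [h1, one_mul, h2, list_rot, RP.rot_apply]
    unfold ff
    rw [Fin.cons_succ]

lemma avg_prod {Q : ℕ} (hQ : 0 < Q) (T : Fin d → Equiv.Perm X) (P : Fin d → Fin m → Polynomial ℤ)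
    (f : Fin m → X → ℂ) (A : Finset ℤ) (x : X) (N : ℕ) : ((2 * N + 1 : ℕ) : ℂ)⁻¹ *
        ∑ n ∈ Finset.Icc (-(N : ℤ)) (N : ℤ), term (RP.gens T Q) (PP P) (ff Q A f) (x, 0) n = avg T P f Q A x N := by
  classical
  unfold avg
  congr 1
  rw [sum_filter]
  refine sum_congr rfl fun n _ => ?_
  rw [term_prod hQ]
  split_ifs <;> simp

lemma all_of_question (h : Question) [MeasurableSpace X] {μ : Measure X} [IsProbabilityMeasure μ]
    {T : Fin d → Equiv.Perm X} (hT : ∀ i, Good μ (T i)) (hn : Group.IsNilpotent ↥(Subgroup.closure (Set.range T)))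
    {P : Fin d → Fin m → Polynomial ℤ} (hP : ∀ i j, (P i j).eval 0 = 0) {f : Fin m → X → ℂ}
    (hf : ∀ j, MemLp (f j) ∞ μ) {Q : ℕ} (hQ : 0 < Q) (A : Finset ℤ) : ConvAE μ T P f Q A := by
  have : NeZero Q := ⟨hQ.ne'⟩
  have hnu := RP.nu_prob hQ
  have h1 := h (X × ZMod Q) (μ.prod (RP.nu Q)) (d + 1) (m + 1) (RP.gens T Q) ?_ ?_ (RP.nilp hn Q) (PP P) ?_
    (ff Q A f) ?_
  · have h2 := RP.ae_zero hQ h1
    unfold ConvAE
    filter_upwards [h2] with x hx
    obtain ⟨L, hL⟩ := hx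
    refine ⟨L, hL.congr fun N => ?_⟩
    exact avg_prod hQ T P f A x N
  · intro i
    refine Fin.cases ?_ (fun i => ?_) i
    · show Measurable (RP.rot 1 1).symm
      rw [RP.rot_symm]
      exact RP.meas_rot hQ measurable_id _
    · show Measurable (RP.rot (T i) 0).symm
      rw [RP.rot_symm]
      exact RP.meas_rot hQ (hT i).1 _
  · intro i
    refine Fin.cases ?_ (fun i => ?_) i
    · exact RP.mp_rot hQ (MeasurePreserving.id μ) 1
    · exact RP.mp_rot hQ (hT i).2 0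
  · intro i j
    unfold PP
    refine Fin.cases ?_ (fun i => ?_) i
    · refine Fin.cases ?_ (fun j => ?_) j
      · simp
      · simp
    · refine Fin.cases ?_ (fun j => ?_) j
      · simp
      · simpa using hP i j
  · intro j
    unfold ff
    refine Fin.cases ?_ (fun j => ?_) j
    · rw [Fin.cons_zero]
      refine memLp_top_of_bound ?_ 1 (Eventually.of_forall fun z => ?_)
      · have h2 : Measurable (fun s : ZMod Q => if ((s.val : ℕ) : ℤ) ∈ A then (1 : ℂ) else 0) := measurable_of_finite _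
        exact (h2.comp measurable_snd).aestronglyMeasurable
      · split_ifs <;> simp
    · rw [Fin.cons_succ]
      exact (hf j).comp_measurePreserving measurePreserving_fst

lemma share_of_all [MeasurableSpace X] {μ : Measure X} {T : Fin d → Equiv.Perm X}
    (P : Fin d → Fin m → Polynomial ℤ) {f : Fin m → X → ℂ}
    (h : ∀ Q : ℕ, 0 < Q → ∀ A ⊆ Ico 0 (Q : ℤ), ConvAE μ T P f Q A)
    {q : ℕ} (hq : 0 < q) (K : ℝ) : ∃ Q : ℕ, 0 < Q ∧ q ∣ Q ∧ K * 2 ^ Q / √Q ≤ count μ T P f Q := by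
  classical
  obtain ⟨Q, hQ, hd, h1⟩ := sqrt_large q hq K
  refine ⟨Q, hQ, hd, h1.trans (le_of_eq ?_)⟩
  unfold count
  rw [filter_true_of_mem (fun A hA => h _ hQ A (mem_powerset.1 hA)), card_powerset, Int.card_Ico]
  simp

lemma full (T : Fin d → Equiv.Perm X) (P : Fin d → Fin m → Polynomial ℤ) (f : Fin m → X → ℂ)
    (x : X) (N : ℕ) : avg T P f 1 {0} x N = ((2 * N + 1 : ℕ) : ℂ)⁻¹ *
        ∑ n ∈ Finset.Icc (-(N : ℤ)) (N : ℤ), term T P f x n := by
  classical
  unfold avg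
  rw [filter_true_of_mem]
  intro n _
  rw [mem_singleton, Nat.cast_one, Int.emod_one]

end

theorem result :
    -- zero-one law, almost everywhere and at a point
    (∀ (X : Type) [MeasurableSpace X] (μ : Measure X) (d m : ℕ) (T : Fin d → Equiv.Perm X),
      (∀ i, Measurable ⇑(T i).symm) → (∀ i, MeasurePreserving (⇑(T i)) μ μ) →
      ∀ (P : Fin d → Fin m → Polynomial ℤ) (f : Fin m → X → ℂ), (∀ j, MemLp (f j) ∞ μ) →
      ∀ (q : ℕ) (B : Finset ℤ), ¬ ConvAE μ T P f q B →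
        ∃ C : ℝ, 0 < C ∧ ∀ Q : ℕ, 0 < Q → q ∣ Q → (count μ T P f Q : ℝ) ≤ C * 2 ^ Q / √Q) ∧
    (∀ (X : Type) (d m : ℕ) (T : Fin d → Equiv.Perm X) (P : Fin d → Fin m → Polynomial ℤ) (f : Fin m → X → ℂ)
      (K : ℝ), (∀ j y, ‖f j y‖ ≤ K) → ∀ (q : ℕ) (B : Finset ℤ) (x : X), ¬ ConvAt T P f q B x →
        ∃ C : ℝ, 0 < C ∧ ∀ Q : ℕ, 0 < Q → q ∣ Q → (countAt T P f Q x : ℝ) ≤ C * 2 ^ Q / √Q) ∧
    -- one system
    (∀ (X : Type) [MeasurableSpace X] (μ : Measure X) (d m : ℕ) (T : Fin d → Equiv.Perm X),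
      (∀ i, Measurable ⇑(T i).symm) → (∀ i, MeasurePreserving (⇑(T i)) μ μ) →
      ∀ (P : Fin d → Fin m → Polynomial ℤ) (f : Fin m → X → ℂ), (∀ j, MemLp (f j) ∞ μ) →
      ((∀ Q : ℕ, 0 < Q → ∀ A ⊆ Ico 0 (Q : ℤ), ConvAE μ T P f Q A) ↔
        ∀ q : ℕ, 0 < q → ∀ K : ℝ, ∃ Q : ℕ, 0 < Q ∧ q ∣ Q ∧ K * 2 ^ Q / √Q ≤ count μ T P f Q)) ∧
    -- the question
    (Question ↔ ∀ (X : Type) [MeasurableSpace X] (μ : Measure X) [IsProbabilityMeasure μ]
      (d m : ℕ) (T : Fin d → Equiv.Perm X), (∀ i, Measurable ⇑(T i).symm) → (∀ i, MeasurePreserving (⇑(T i)) μ μ) →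
      Group.IsNilpotent (Subgroup.closure (Set.range T)) →
      ∀ (P : Fin d → Fin m → Polynomial ℤ), (∀ i j, (P i j).eval 0 = 0) →
      ∀ (f : Fin m → X → ℂ), (∀ j, MemLp (f j) ∞ μ) →
        ∀ K : ℝ, ∃ Q : ℕ, 0 < Q ∧ K * 2 ^ Q / √Q ≤ count μ T P f Q) := by
  refine ⟨?_, ?_, ?_, ?_⟩
  · intro X _ μ d m T hT1 hT2 P f hf q B hcon
    exact zero_one' (fun i => ⟨hT1 i, hT2 i⟩) P hf q B hcon
  · intro X d m T P f K hf q B x hcon
    rw [conv_iff'] at hcon
    obtain ⟨C, hC, h⟩ := few_convZ' (u := term T P f x) (K := K ^ m) (fun n => by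
      unfold term
      rw [norm_prod]
      refine (prod_le_prod (fun _ _ => norm_nonneg _) fun j _ => hf j _).trans ?_
      rw [prod_const, card_univ, Fintype.card_fin]) q B hcon
    refine ⟨C, hC, fun Q hQ hd => ?_⟩
    rw [countAt_eq]
    exact h Q hQ hd
  · intro X _ μ d m T hT1 hT2 P f hf
    constructor
    · intro h q hq K
      exact share_of_all P h hq K
    · intro h Q hQ A _
      exact ae_of_share (fun i => ⟨hT1 i, hT2 i⟩) P hf Q A (h Q hQ)
  · constructor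
    · intro h X _ μ _ d m T hT1 hT2 hn P hP f hf K
      obtain ⟨Q, hQ, -, h1⟩ := share_of_all (μ := μ) (T := T) P (f := f)
        (fun Q hQ A _ => all_of_question h (fun i => ⟨hT1 i, hT2 i⟩) hn hP hf hQ A) one_pos K
      exact ⟨Q, hQ, h1⟩
    · intro h X _ μ _ d m T hT1 hT2 hn P hP f hf
      have h1 := ae_of_share (fun i => ⟨hT1 i, hT2 i⟩) P hf 1 {0} (fun K => by
        obtain ⟨Q, hQ, h2⟩ := h X μ d m T hT1 hT2 hn P hP f hf K
        exact ⟨Q, hQ, one_dvd _, h2⟩)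
      filter_upwards [h1] with x hx
      obtain ⟨L, hL⟩ := hx
      refine ⟨L, hL.congr fun N => ?_⟩
      rw [full]
      rfl

end Pool.Agent.Results.MP_4d8f14_an.UnionsOfClasses
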